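import Pool.Agent.H62Z.SLMain

set_option autoImplicit false

namespace Pool.Agent.Results.MP_052aee_gt.ACounter

open UpperHalfPlane MatrixGroups Pool.Agent.H62Z.SL

/-- Two homeomorphic Nielsen-convex hyperbolic surfaces with nonabelian fundamental group, with
the same simple length spectrum (multiplicities included), that are not isometric. -/
theorem result : ∃ Γ Γ' : Subgroup SL(2, ℝ), IsSurfaceGroup Γ ∧ IsSurfaceGroup Γ' ∧
    NielsenConvex Γ ∧ NielsenConvex Γ' ∧ Nonempty (Surf Γ ≃ₜ Surf Γ') ∧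
    (∀ L : ℝ, Cardinal.mk (simpleGeodesics Γ L) = Cardinal.mk (simpleGeodesics Γ' L)) ∧
    ¬ ∃ f : Surf Γ ≃ Surf Γ', ∀ p q, qdist Γ' (f p) (f q) = qdist Γ p q :=
  Pool.Agent.H62Z.SL.main

end Pool.Agent.Results.MP_052aee_gt.ACounter
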